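import Pool.Agent.SCT.StmtsP

/-!
# SCT, row CRK: the corank is at most two on the hypersurface
-/

set_option autoImplicit false

namespace Pool.Agent.SCT.H62

open Polynomial

theorem dvd_det {n R : Type} [Fintype n] [DecidableEq n] [CommRing R] (x : R) (Q : Matrix n n R)
    (S : Finset n) (h : ∀ j ∈ S, ∀ i, x ∣ Q i j) : x ^ S.card ∣ Q.det := by
  rw [Matrix.det_apply]
  refine Finset.dvd_sum fun σ _ => ?_
  rw [Units.smul_def, zsmul_eq_mul]
  refine Dvd.dvd.mul_left ?_ _
  rw [← Finset.prod_const]
  exact (Finset.prod_dvd_prod_of_dvd _ _ fun j hj => h j hj (σ j)).trans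
    (Finset.prod_dvd_prod_of_subset _ _ _ (Finset.subset_univ S))

theorem X_cube {F : Type} [Field F] (A B : Matrix (Fin (4 + 2)) (Fin (4 + 2)) F)
    (v : Fin 3 → Fin (4 + 2) → F) (hv : LinearIndependent F v) (hA : ∀ s, A.mulVec (v s) = 0) :
    (X : F[X]) ^ 3 ∣ (A.map C + (X : F[X]) • B.map C).det := by
  classical
  let b := Module.Basis.extend hv.linearIndepOn_id
  let e := b.indexEquiv (Pi.basisFun F (Fin (4 + 2)))
  have hmem : ∀ s, v s ∈ hv.linearIndepOn_id.extend (Set.subset_univ (Set.range v)) := fun s =>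
    hv.linearIndepOn_id.subset_extend (Set.subset_univ _) (Set.mem_range_self s)
  let G : Matrix (Fin (4 + 2)) (Fin (4 + 2)) F := Matrix.of fun i j => b (e.symm j) i
  have hG : IsUnit G := by
    rw [← Matrix.linearIndependent_cols_iff_isUnit]
    have h1 : LinearIndependent F (fun j => b (e.symm j)) :=
      b.linearIndependent.comp e.symm e.symm.injective
    exact h1
  have hGdet : IsUnit (G.map (C : F →+* F[X])).det := by
    have h1 : (G.map (C : F →+* F[X])).det = C G.det := by
      rw [← RingHom.mapMatrix_apply, ← RingHom.map_det]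
    rw [h1]
    exact ((Matrix.isUnit_iff_isUnit_det G).1 hG).map C
  let S : Finset (Fin (4 + 2)) := Finset.univ.image fun s : Fin 3 => e ⟨v s, hmem s⟩
  have hS : S.card = 3 := by
    rw [Finset.card_image_of_injective, Finset.card_univ, Fintype.card_fin]
    intro s s' hss
    have h1 := e.injective hss
    exact hv.injective (congrArg Subtype.val h1)
  have hdvd := dvd_det (X : F[X]) ((A.map C + (X : F[X]) • B.map C) * G.map C) S (fun j hj i => by
    obtain ⟨s, -, rfl⟩ := Finset.mem_image.1 hj
    rw [add_mul, Matrix.add_apply, Matrix.smul_mul, Matrix.smul_apply, smul_eq_mul]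
    have h1 : (A.map C * G.map C) i (e ⟨v s, hmem s⟩) = 0 := by
      rw [← Matrix.map_mul, Matrix.map_apply]
      have h2 : (A * G) i (e ⟨v s, hmem s⟩) = (A.mulVec (v s)) i := by
        rw [Matrix.mul_apply]
        unfold Matrix.mulVec dotProduct
        refine Finset.sum_congr rfl fun k _ => ?_
        congr 1
        change b (e.symm (e ⟨v s, hmem s⟩)) k = v s k
        rw [Equiv.symm_apply_apply]
        have h3 : b ⟨v s, hmem s⟩ = v s := Module.Basis.extend_apply_self _ _
        rw [h3]
      rw [h2, hA s]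
      simp
    rw [h1, zero_add]
    exact dvd_mul_right _ _)
  rw [hS, Matrix.det_mul] at hdvd
  exact (hGdet.dvd_mul_right).1 hdvd

theorem crk (hE : ExpStmt) (hP : PdtStmt) (hN : NsxStmt) : CrkStmt := by
  intro E _ _ f m c hf hns hpf Ω _ _ z hz hzf a b d ha hb hd hli
  have hinfE : Infinite E := IsAlgClosed.instInfinite
  have hinf : Infinite Ω := Infinite.of_injective (algebraMap E Ω) (algebraMap E Ω).injective
  obtain ⟨i, hi⟩ := hN E 4 3 f hf hns Ω z hz hzf
  apply hi
  let y : Fin (4 + 2) → Ω := Pi.single i 1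
  have hdd : dd f z y = MvPolynomial.aeval z (MvPolynomial.pderiv i f) := by
    unfold dd
    rw [Finset.sum_eq_single i]
    · simp [y]
    · intro j _ hj
      simp [y, Pi.single_eq_of_ne hj]
    · intro h
      exact absurd (Finset.mem_univ i) h
  rw [← hdd]
  -- the polynomial identity
  have hid : ((pm E m z).map C + (X : Polynomial Ω) • (pm E m y).map C).det =
      C (algebraMap E Ω c) * (X ^ 2 * (C (dd f z y) + X * (C (dd f y z) +
        X * C (MvPolynomial.aeval y f))) ^ 2) := by
    apply Polynomial.funext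
    intro t
    have h1 : eval t ((pm E m z).map C + (X : Polynomial Ω) • (pm E m y).map C).det =
        (pm E m (fun i => z i + t * y i)).det := by
      rw [← coe_evalRingHom, RingHom.map_det]
      congr 1
      rw [pm_add, pm_smul]
      ext k l
      simp
      exact mul_comm _ _
    have h2 := (hE E Ω (Fin (4 + 2)) f hf z y t).1
    rw [h1, hP E f m c hpf Ω, h2, hzf]
    simp only [eval_mul, eval_C, eval_pow, eval_X, eval_add]
    ring
  have hdvd := X_cube (pm E m z) (pm E m y) ![a, b, d] hli (fun s => by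
    match s with
    | 0 => exact ha
    | 1 => exact hb
    | 2 => exact hd)
  rw [hid] at hdvd
  have h3 : (X : Polynomial Ω) ∣ C (algebraMap E Ω c) * (C (dd f z y) + X * (C (dd f y z) +
        X * C (MvPolynomial.aeval y f))) ^ 2 := by
    have h4 : (X : Polynomial Ω) ^ 2 * X ∣ X ^ 2 * (C (algebraMap E Ω c) * (C (dd f z y) +
        X * (C (dd f y z) + X * C (MvPolynomial.aeval y f))) ^ 2) := by
      have e1 : (X : Polynomial Ω) ^ 2 * X = X ^ 3 := by ring
      have e2 : X ^ 2 * (C (algebraMap E Ω c) * (C (dd f z y) +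
        X * (C (dd f y z) + X * C (MvPolynomial.aeval y f))) ^ 2) =
        C (algebraMap E Ω c) * (X ^ 2 * (C (dd f z y) + X * (C (dd f y z) +
        X * C (MvPolynomial.aeval y f))) ^ 2) := by ring
      rw [e1, e2]
      exact hdvd
    exact (mul_dvd_mul_iff_left (pow_ne_zero 2 X_ne_zero)).1 h4
  rw [X_dvd_iff, coeff_zero_eq_eval_zero] at h3
  simp only [eval_mul, eval_C, eval_pow, eval_X, eval_add, zero_mul, add_zero] at h3
  have hc : algebraMap E Ω c ≠ 0 := fun h => hpf.ne ((map_eq_zero _).1 h)
  exact pow_eq_zero_iff (two_ne_zero) |>.1 ((mul_eq_zero.1 h3).resolve_left hc)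

end Pool.Agent.SCT.H62
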